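import Pool.Agent.T9h42.GF.Spec

/-!
# Divisors of polynomials over a finite field
-/

set_option autoImplicit false

namespace Pool.Agent.T9h46.GF

open Polynomial Finset
open Pool.Agent.T9h42.GF

section

variable {k : Type} [Field k]

/-- a monic associate -/
lemma exists_monic {a : k[X]} (ha : a ≠ 0) : ∃ g u : k[X], g.Monic ∧ a = g * u ∧ IsUnit u := by
  have hl : a.leadingCoeff ≠ 0 := leadingCoeff_ne_zero.2 ha
  refine ⟨a * C a.leadingCoeff⁻¹, C a.leadingCoeff, monic_mul_leadingCoeff_inv ha, ?_,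
    isUnit_C.2 (isUnit_iff_ne_zero.2 hl)⟩
  rw [mul_assoc, ← C_mul, inv_mul_cancel₀ hl, C_1, mul_one]

lemma natDegree_unit {u : k[X]} (h : IsUnit u) : u.natDegree = 0 := natDegree_eq_zero_of_isUnit h

end

variable (hB : BoxMem)

include hB

lemma mem_mdiv {k : Type} [Field k] [Fintype k] {h g : k[X]} (h0 : h ≠ 0) :
    g ∈ mdiv h ↔ g.Monic ∧ g ∣ h := (hB k).2.2.2.1 h g h0

open Classical in
lemma mdiv_mul_le {k : Type} [Field k] [Fintype k] {π h : k[X]} (hπ : Irreducible π) (h0 : h ≠ 0) :
    (mdiv (π * h)).card ≤ 2 * (mdiv h).card := by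
  obtain ⟨ϖ, u, h1, h2, h3⟩ := exists_monic hπ.ne_zero
  have h4 : mdiv (π * h) ⊆ mdiv h ∪ (mdiv h).image (fun g => ϖ * g) := by
    intro g hg
    rw [mem_mdiv hB (mul_ne_zero hπ.ne_zero h0)] at hg
    rw [mem_union, mem_image]
    by_cases hd : π ∣ g
    · right
      obtain ⟨c, hc⟩ := hd
      refine ⟨u * c, ?_, ?_⟩
      · rw [mem_mdiv hB h0]
        constructor
        · have e : ϖ * (u * c) = g := by rw [hc, h2, mul_assoc]
          exact Monic.of_mul_monic_left h1 (by rw [e]; exact hg.1)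
        · have h5 : π * c ∣ π * h := hc ▸ hg.2
          have h6 : c ∣ h := (mul_dvd_mul_iff_left hπ.ne_zero).1 h5
          exact h3.mul_left_dvd.2 h6
      · rw [hc, h2, mul_assoc]
    · left
      rw [mem_mdiv hB h0]
      refine ⟨hg.1, ?_⟩
      have hco : IsCoprime g π := ((Irreducible.coprime_iff_not_dvd hπ).2 hd).symm
      exact hco.dvd_of_dvd_mul_left hg.2
  have h5 := card_le_card h4
  have h6 := card_union_le (mdiv h) ((mdiv h).image (fun g => ϖ * g))
  have h7 := card_image_le (s := mdiv h) (f := fun g => ϖ * g)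
  omega

lemma mdiv_unit {k : Type} [Field k] [Fintype k] {h : k[X]} (hu : IsUnit h) :
    (mdiv h).card ≤ 1 := by
  rw [card_le_one]
  intro a ha b hb
  rw [mem_mdiv hB hu.ne_zero] at ha hb
  have h1 : a = 1 := ha.1.eq_one_of_isUnit (isUnit_of_dvd_unit ha.2 hu)
  have h2 : b = 1 := hb.1.eq_one_of_isUnit (isUnit_of_dvd_unit hb.2 hu)
  rw [h1, h2]

theorem tau : Tau := by
  intro k _ _ w h hw h0 hr
  induction hn : h.natDegree using Nat.strong_induction_on generalizing h with
  | _ n ih =>
    by_cases hu : IsUnit h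
    · exact (mdiv_unit hB hu).trans Nat.one_le_two_pow
    · obtain ⟨π, hπ, g, rfl⟩ := WfDvdMonoid.exists_irreducible_factor hu h0
      have hg0 : g ≠ 0 := right_ne_zero_of_mul h0
      have hd : (π * g).natDegree = π.natDegree + g.natDegree := natDegree_mul hπ.ne_zero hg0
      have hw' := hr π hπ (dvd_mul_right _ _)
      have h1 := ih g.natDegree (by omega) g hg0
        (fun p hp hpg => hr p hp (hpg.trans (dvd_mul_left _ _))) rfl
      have h2 := mdiv_mul_le hB hπ hg0
      have h3 : g.natDegree / w + 1 ≤ n / w := by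
        rw [← Nat.add_div_right _ hw]
        exact Nat.div_le_div_right (by omega)
      calc (mdiv (π * g)).card ≤ 2 * (mdiv g).card := h2
        _ ≤ 2 * 2 ^ (g.natDegree / w) := Nat.mul_le_mul_left _ h1
        _ = 2 ^ (g.natDegree / w + 1) := by rw [pow_succ, mul_comm]
        _ ≤ 2 ^ (n / w) := Nat.pow_le_pow_right (by norm_num) h3

omit hB in
/-- the tuples whose product is divisible by `h` -/
noncomputable def Tp {k : Type} [Field k] (S : Finset k[X]) (j : ℕ) (h : k[X]) :
    Finset (Fin j → k[X]) :=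
  open Classical in (Fintype.piFinset (fun _ : Fin j => S)).filter (fun x => h ∣ ∏ i, x i)

omit hB in
lemma Tp_coe {k : Type} [Field k] (S : Finset k[X]) (j : ℕ) (h : k[X]) :
    {x : Fin j → k[X] | (∀ i, x i ∈ S) ∧ h ∣ ∏ i, x i} = (Tp S j h : Set (Fin j → k[X])) := by
  ext x
  simp only [Tp, Set.mem_setOf_eq, coe_filter, Fintype.mem_piFinset]

open Classical in
lemma Tp_succ {k : Type} [Field k] [Fintype k] (S : Finset k[X]) (j : ℕ) (h : k[X])
    (h0 : h ≠ 0) :
    (Tp S (j + 1) h).card ≤ ∑ g ∈ mdiv h, (S.filter (g ∣ ·)).card * (Tp S j (h / g)).card := by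
  have h1 : Tp S (j + 1) h ⊆ (mdiv h).biUnion (fun g =>
      ((S.filter (g ∣ ·)) ×ˢ (Tp S j (h / g))).image
        (fun p => (Fin.cons p.1 p.2 : Fin (j + 1) → k[X]))) := by
    intro x hx
    simp only [Tp, mem_filter, Fintype.mem_piFinset] at hx
    obtain ⟨hx1, hx2⟩ := hx
    rw [Fin.prod_univ_succ] at hx2
    obtain ⟨a, b, ha, hb, hab⟩ := exists_dvd_and_dvd_of_dvd_mul hx2
    have ha0 : a ≠ 0 := by rintro rfl; exact h0 (by rw [hab, zero_mul])
    obtain ⟨g, u, hg, hgu, hu⟩ := exists_monic ha0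
    have hh : h = g * (u * b) := by rw [hab, hgu, mul_assoc]
    rw [mem_biUnion]
    refine ⟨g, (mem_mdiv hB h0).2 ⟨hg, ⟨_, hh⟩⟩, ?_⟩
    rw [mem_image]
    refine ⟨(x 0, fun i => x i.succ), ?_, ?_⟩
    · rw [mem_product]
      refine ⟨mem_filter.2 ⟨hx1 0, ?_⟩, ?_⟩
      · exact (Dvd.intro u hgu.symm).trans ha
      · simp only [Tp, mem_filter, Fintype.mem_piFinset]
        refine ⟨fun i => hx1 _, ?_⟩
        have e : h / g = u * b := by
          rw [hh]; exact mul_div_cancel_left₀ _ hg.ne_zero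
        rw [e]
        exact hu.mul_left_dvd.2 hb
    · funext i
      refine Fin.cases ?_ (fun i => ?_) i
      · rfl
      · rfl
  refine (card_le_card h1).trans (card_biUnion_le.trans (sum_le_sum fun g _ => ?_))
  exact card_image_le.trans (card_product _ _).le

theorem divProd : DivProd := by
  intro k _ _ h S B j hh hB0 hS
  rw [Tp_coe, Set.ncard_coe_finset]
  induction j generalizing h with
  | zero =>
    simp only [pow_zero, mul_one]
    by_cases h1 : h = 1
    · rw [h1]
      simp only [natDegree_one, pow_zero, mul_one]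
      have : (Tp S 0 (1 : k[X])).card ≤ 1 := by
        rw [card_le_one]
        intro a _ b _
        exact Subsingleton.elim _ _
      exact_mod_cast this
    · have : Tp S 0 h = ∅ := by
        rw [eq_empty_iff_forall_notMem]
        intro x hx
        simp only [Tp, mem_filter, univ_eq_empty, prod_empty] at hx
        exact h1 (hh.eq_one_of_isUnit (isUnit_of_dvd_one hx.2))
      rw [this]; simp
  | succ j ih =>
    classical
    have h0 := hh.ne_zero
    have key : ∀ g ∈ mdiv h, (((S.filter (g ∣ ·)).card : ℝ) * (Tp S j (h / g)).card) *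
        (Fintype.card k : ℝ) ^ h.natDegree ≤
          (B * S.card) * (((mdiv h).card : ℝ) ^ j * B ^ j * (S.card : ℝ) ^ j) := by
      intro g hg
      rw [mem_mdiv hB h0] at hg
      obtain ⟨hg1, hg2⟩ := hg
      have e1 : g * (h / g) = h := EuclideanDomain.mul_div_cancel' hg1.ne_zero hg2
      have hm : (h / g).Monic := Monic.of_mul_monic_left hg1 (by rw [e1]; exact hh)
      have hd : h.natDegree = g.natDegree + (h / g).natDegree := by
        conv_lhs => rw [← e1]
        exact hg1.natDegree_mul hm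
      have hdv : h / g ∣ h := ⟨g, by rw [mul_comm]; exact e1.symm⟩
      have h1 := ih (h / g) hm (fun g' hg' hd' => hS g' hg' (hd'.trans hdv))
      have h2 := hS g hg1 hg2
      have h3 : (((S.filter (g ∣ ·)).card : ℕ) : ℝ) * (Fintype.card k : ℝ) ^ g.natDegree
          ≤ B * S.card := by
        have e2 : {x ∈ (S : Set k[X]) | g ∣ x} = ((S.filter (g ∣ ·) : Finset k[X]) : Set k[X]) := by
          ext x; simp
        rw [e2, Set.ncard_coe_finset] at h2
        exact h2
      have h4 : (mdiv (h / g)).card ≤ (mdiv h).card := by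
        refine card_le_card fun p hp => ?_
        rw [mem_mdiv hB hm.ne_zero] at hp
        exact (mem_mdiv hB h0).2 ⟨hp.1, hp.2.trans hdv⟩
      have h5 : (((mdiv (h / g)).card : ℝ) ^ j * B ^ j * (S.card : ℝ) ^ j) ≤
          ((mdiv h).card : ℝ) ^ j * B ^ j * (S.card : ℝ) ^ j := by
        have : ((mdiv (h / g)).card : ℝ) ≤ (mdiv h).card := by exact_mod_cast h4
        gcongr
      rw [hd, pow_add]
      calc _ = (((S.filter (g ∣ ·)).card : ℝ) * (Fintype.card k : ℝ) ^ g.natDegree) *
            (((Tp S j (h / g)).card : ℝ) * (Fintype.card k : ℝ) ^ (h / g).natDegree) := by ring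
        _ ≤ _ := mul_le_mul h3 (h1.trans h5) (by positivity) (by positivity)
    have h1 : ((Tp S (j + 1) h).card : ℝ) ≤
        ∑ g ∈ mdiv h, ((S.filter (g ∣ ·)).card : ℝ) * (Tp S j (h / g)).card := by
      exact_mod_cast Tp_succ hB S j h h0
    calc ((Tp S (j + 1) h).card : ℝ) * (Fintype.card k : ℝ) ^ h.natDegree
        ≤ (∑ g ∈ mdiv h, ((S.filter (g ∣ ·)).card : ℝ) * (Tp S j (h / g)).card) *
          (Fintype.card k : ℝ) ^ h.natDegree := by gcongr
      _ = ∑ g ∈ mdiv h, (((S.filter (g ∣ ·)).card : ℝ) * (Tp S j (h / g)).card) *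
          (Fintype.card k : ℝ) ^ h.natDegree := by rw [sum_mul]
      _ ≤ ∑ g ∈ mdiv h, (B * S.card) * (((mdiv h).card : ℝ) ^ j * B ^ j * (S.card : ℝ) ^ j) :=
          sum_le_sum key
      _ = _ := by rw [sum_const, nsmul_eq_mul]; ring

end Pool.Agent.T9h46.GF
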