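import Pool.Agent.T9h42.GF.Spec2

/-!
# Typical points from the count theorem
-/

set_option autoImplicit false

namespace Pool.Agent.T9h46.GF

open Polynomial Finset H39Gon
open Pool.Agent.T9h42.GF

section deg

variable {ι : Type} [Fintype ι] [DecidableEq ι] {Ω : ι → Type}

lemma deg_of_sum {r : ℕ} {T : Type} [Fintype T] (D : T → Finset ι) (H : T → (∀ i, Ω i) → ℝ)
    (hD : ∀ t, (D t).card ≤ r) (hH : ∀ t x y, (∀ i ∈ D t, x i = y i) → H t x = H t y) :
    Deg r (fun x => ∑ t, H t x) := by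
  classical
  refine ⟨fun S x => ∑ t ∈ univ.filter (fun t => D t = S), H t x, ?_, ?_⟩
  · intro S x y h
    refine sum_congr rfl fun t ht => hH t x y ?_
    rw [(mem_filter.1 ht).2]; exact h
  · intro x
    exact (sum_fiberwise_of_maps_to (s := univ) (t := univ.filter (fun S : Finset ι => S.card ≤ r))
      (g := D) (fun t _ => mem_filter.2 ⟨mem_univ _, hD t⟩) (fun t => H t x)).symm

lemma deg_multi [∀ i, Fintype (Ω i)] {m : ℕ} {V : Type} [AddCommGroup V]
    (Q : MultilinearMap ℤ (fun _ : Fin (m + 1) => V) (V →ₗ[ℤ] ℚ))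
    (U W : Option ι → (∀ i, Ω i) → V)
    (hU : ∀ o x y, (∀ i, o = some i → x i = y i) → U o x = U o y)
    (hW : ∀ o x y, (∀ i, o = some i → x i = y i) → W o x = W o y) :
    Deg (m + 2) (fun x => ((Q (fun _ => ∑ o, U o x) (∑ o, W o x) : ℚ) : ℝ)) := by
  classical
  have h : ∀ x : ∀ i, Ω i, ((Q (fun _ => ∑ o, U o x) (∑ o, W o x) : ℚ) : ℝ) =
      ∑ t : (Fin (m + 1) → Option ι) × Option ι,
        ((Q (fun i => U (t.1 i) x) (W t.2 x) : ℚ) : ℝ) := by
    intro x
    rw [Q.map_sum (fun _ o => U o x), LinearMap.sum_apply, Rat.cast_sum, Fintype.sum_prod_type]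
    refine sum_congr rfl fun f _ => ?_
    rw [map_sum, Rat.cast_sum]
  simp only [h]
  refine deg_of_sum (fun t => univ.filter (fun i => t.2 = some i ∨ ∃ j, t.1 j = some i)) _ ?_ ?_
  · intro t
    have h1 : (univ.filter (fun i => t.2 = some i ∨ ∃ j, t.1 j = some i)).card ≤
        (insert t.2 (univ.image t.1)).card := by
      refine card_le_card_of_injOn some ?_ (Option.some_injective _).injOn
      intro i hi
      simp only [coe_filter, mem_univ, true_and, Set.mem_ofPred_eq] at hi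
      rw [mem_coe, mem_insert, mem_image]
      rcases hi with hi | ⟨j, hj⟩
      · exact .inl hi.symm
      · exact .inr ⟨j, mem_univ _, hj⟩
    have h2 := card_insert_le t.2 (univ.image t.1)
    have h3 := card_image_le (s := (univ : Finset (Fin (m + 1)))) (f := t.1)
    rw [card_univ, Fintype.card_fin] at h3
    omega
  · intro t x y hxy
    have h1 : (fun i => U (t.1 i) x) = fun i => U (t.1 i) y := by
      funext j
      exact hU _ _ _ fun i hi => hxy i (mem_filter.2 ⟨mem_univ _, .inr ⟨j, hi⟩⟩)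
    have h2 : W t.2 x = W t.2 y :=
      hW _ _ _ fun i hi => hxy i (mem_filter.2 ⟨mem_univ _, .inl hi⟩)
    rw [h1, h2]

end deg

section cl

variable {F : Type} [Field F]

lemma cl_of_ne {x : F} (h : x ≠ 0) : cl x = Additive.ofMul (Units.mk0 x h) := by simp [cl, h]

lemma cl_one : cl (1 : F) = 0 := by
  rw [cl_of_ne one_ne_zero]
  have : Units.mk0 (1 : F) one_ne_zero = 1 := by ext; rfl
  rw [this]; rfl

lemma cl_mul {x y : F} (hx : x ≠ 0) (hy : y ≠ 0) : cl (x * y) = cl x + cl y := by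
  rw [cl_of_ne hx, cl_of_ne hy, cl_of_ne (mul_ne_zero hx hy), ← ofMul_mul]
  congr 1
  ext; rfl

lemma cl_inv {x : F} (hx : x ≠ 0) : cl x⁻¹ = - cl x := by
  have h := cl_mul hx (inv_ne_zero hx)
  rw [mul_inv_cancel₀ hx, cl_one] at h
  exact (neg_eq_of_add_eq_zero_right h.symm).symm

lemma cl_div {x y : F} (hx : x ≠ 0) (hy : y ≠ 0) : cl (x / y) = cl x - cl y := by
  rw [div_eq_mul_inv, cl_mul hx (inv_ne_zero hy), cl_inv hy, sub_eq_add_neg]

lemma cl_neg_one : (2 : ℤ) • cl (-1 : F) = 0 := by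
  rw [two_zsmul, ← cl_mul (neg_ne_zero.2 one_ne_zero) (neg_ne_zero.2 one_ne_zero)]
  rw [neg_mul_neg, mul_one, cl_one]

end cl

section pc

variable {k : Type} [Field k]

lemma map_ne {a : k[X]} (ha : a ≠ 0) : algebraMap k[X] (RatFunc k) a ≠ 0 := by
  simpa using ha

lemma pc_one : pc (1 : k[X]) = 0 := by rw [pc, map_one, cl_one]

lemma pc_mul {a b : k[X]} (ha : a ≠ 0) (hb : b ≠ 0) : pc (a * b) = pc a + pc b := by
  rw [pc, map_mul, cl_mul (map_ne ha) (map_ne hb), pc, pc]

lemma pc_prod {T : Type} (s : Finset T) (f : T → k[X]) (h : ∀ i ∈ s, f i ≠ 0) :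
    pc (∏ i ∈ s, f i) = ∑ i ∈ s, pc (f i) := by
  classical
  induction s using Finset.induction_on with
  | empty => simp [pc_one]
  | insert a s ha ih =>
    rw [prod_insert ha, sum_insert ha,
      pc_mul (h a (mem_insert_self _ _))
        (prod_ne_zero_iff.2 (fun i hi => h i (mem_insert_of_mem hi))),
      ih (fun i hi => h i (mem_insert_of_mem hi))]

end pc

/-- torsion does not matter -/
lemma Q_tors {m : ℕ} {V : Type} [AddCommGroup V]
    (Q : MultilinearMap ℤ (fun _ : Fin (m + 1) => V) (V →ₗ[ℤ] ℚ)) (t u v : V)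
    (ht : (2 : ℤ) • t = 0) : Q (fun _ => t + u) v = Q (fun _ => u) v := by
  have h1 : ∀ w : V, Q (fun _ => (2 : ℤ) • w) v = (2 : ℤ) ^ (m + 1) • Q (fun _ => w) v := by
    intro w
    have := Q.map_smul_univ (fun _ => (2 : ℤ)) (fun _ => w)
    rw [this, LinearMap.smul_apply, prod_const, card_univ, Fintype.card_fin]
  have h2 := h1 (t + u)
  have h3 := h1 u
  have h4 : (2 : ℤ) • (t + u) = (2 : ℤ) • u := by rw [smul_add, ht, zero_add]
  rw [h4, h3] at h2
  have h5 : ((2 : ℤ) ^ (m + 1)) ≠ 0 := pow_ne_zero _ (by norm_num)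
  exact (smul_right_injective ℚ h5 h2).symm

/-- the relation for a solution of `α a + β b = c` -/
lemma Q_rel {k : Type} [Field k] {m : ℕ}
    (Q : MultilinearMap ℤ (fun _ : Fin (m + 1) => UV (RatFunc k)) (UV (RatFunc k) →ₗ[ℤ] ℚ))
    (hQ : ∀ f : RatFunc k, f ≠ 0 → f ≠ 1 → Q (fun _ => cl f) (cl (1 - f)) = 0)
    {α β a b c : k[X]} (hα : α ≠ 0) (hβ : β ≠ 0) (ha : a ≠ 0) (hb : b ≠ 0) (hc : c ≠ 0)
    (h : α * a + β * b = c) :
    Q (fun _ => pc a + pc α - pc b - pc β) (pc c - pc b - pc β) = 0 := by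
  have e1 := map_ne hα
  have e2 := map_ne hβ
  have e3 := map_ne ha
  have e4 := map_ne hb
  have e5 := map_ne hc
  have e6 := mul_ne_zero e1 e3
  have e7 := mul_ne_zero e2 e4
  set f : RatFunc k := (-1) * ((algebraMap k[X] (RatFunc k) α * algebraMap k[X] (RatFunc k) a) /
    (algebraMap k[X] (RatFunc k) β * algebraMap k[X] (RatFunc k) b)) with hf
  have hf1 : 1 - f = algebraMap k[X] (RatFunc k) c /
      (algebraMap k[X] (RatFunc k) β * algebraMap k[X] (RatFunc k) b) := by
    rw [hf, ← h, map_add, map_mul, map_mul]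
    field_simp
    ring
  have hf0 : f ≠ 0 := mul_ne_zero (neg_ne_zero.2 one_ne_zero) (div_ne_zero e6 e7)
  have hf2 : f ≠ 1 := by
    intro h1
    rw [h1, sub_self] at hf1
    exact (div_ne_zero e5 e7) hf1.symm
  have h1 := hQ f hf0 hf2
  rw [hf1, hf, cl_mul (neg_ne_zero.2 one_ne_zero) (div_ne_zero e6 e7), cl_div e6 e7,
    cl_div e5 e7, cl_mul e1 e3, cl_mul e2 e4, Q_tors Q _ _ _ cl_neg_one] at h1
  have h2 : (pc a + pc α - pc b - pc β : UV (RatFunc k)) = pc α + pc a - (pc β + pc b) := by abel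
  have h3 : (pc c - pc b - pc β : UV (RatFunc k)) = pc c - (pc β + pc b) := by abel
  rw [h2, h3]
  exact h1

/-- union bound -/
lemma exists_common_zero {ι : Type} [Fintype ι] [DecidableEq ι] {Ω : ι → Type}
    [∀ i, Fintype (Ω i)] [∀ i, Nonempty (Ω i)] {I : Type} [Fintype I] {m : ℕ}
    (hI : Fintype.card I ≤ 2 ^ (m + 2)) (F : I → (∀ i, Ω i) → ℝ)
    (h : ∀ t, av (fun x => if F t x = 0 then 0 else 1) ≤ 1 / 2 ^ (m + 3)) :
    ∃ x, ∀ t, F t x = 0 := by
  by_contra hcon
  push Not at hcon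
  have hc : (0 : ℝ) < Fintype.card (∀ i, Ω i) := by exact_mod_cast Fintype.card_pos
  have h1 : (1 : ℝ) ≤ ∑ t, av (fun x => if F t x = 0 then 0 else 1) := by
    have e : ∑ t, av (fun x => if F t x = 0 then (0 : ℝ) else 1) =
        (∑ x : ∀ i, Ω i, ∑ t, if F t x = 0 then (0 : ℝ) else 1) / Fintype.card (∀ i, Ω i) := by
      simp only [av]
      rw [← sum_div, sum_comm]
    rw [e, le_div_iff₀ hc, one_mul]
    have h2 : (Fintype.card (∀ i, Ω i) : ℝ) = ∑ x : ∀ i, Ω i, (1 : ℝ) := by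
      rw [sum_const, card_univ, nsmul_eq_mul, mul_one]
    rw [h2]
    refine sum_le_sum fun x _ => ?_
    obtain ⟨t, ht⟩ := hcon x
    have h3 := single_le_sum (f := fun t => if F t x = 0 then (0 : ℝ) else 1) (s := univ)
      (fun t _ => by split_ifs <;> norm_num) (mem_univ t)
    rwa [if_neg ht] at h3
  have h2 : ∑ t, av (fun x => if F t x = 0 then (0 : ℝ) else 1) ≤ ∑ t : I, 1 / 2 ^ (m + 3) :=
    sum_le_sum fun t _ => h t
  rw [sum_const, card_univ, nsmul_eq_mul] at h2
  have h3 : (Fintype.card I : ℝ) ≤ 2 ^ (m + 2) := by exact_mod_cast hI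
  have h4 : (Fintype.card I : ℝ) * (1 / 2 ^ (m + 3)) ≤ 1 / 2 := by
    have h5 : (0 : ℝ) < 2 ^ (m + 3) := by positivity
    rw [mul_one_div, div_le_iff₀ h5]
    have h6 : (2 : ℝ) ^ (m + 3) = 2 ^ (m + 2) * 2 := by ring
    rw [h6]; linarith
  linarith

open Classical in
lemma ne_zero_of_mem_Cop {k : Type} [Field k] [Fintype k] {M x : k[X]} {D : ℕ}
    (h : x ∈ Cop M D) : x ≠ 0 := by
  unfold Cop at h
  rw [mem_filter] at h
  obtain ⟨v, -, hv⟩ := mem_image.1 h.1
  intro h0
  have h1 := congrArg (fun p => p.coeff D) (hv.trans h0)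
  simp only [coeff_add, coeff_X_pow, finsetSum_coeff, coeff_C_mul, coeff_zero, if_true] at h1
  rw [sum_eq_zero (fun i _ => by
    rw [if_neg (by have := i.2; omega), mul_zero])] at h1
  simp at h1

open Classical in
lemma Cop_congr {k : Type} [Field k] [Fintype k] {M M' : k[X]}
    (h : ∀ x, IsCoprime x M ↔ IsCoprime x M') : Cop M = Cop M' := by
  funext D
  unfold Cop
  exact filter_congr fun x _ => h x

theorem tpOfCount : TPofCount := by
  intro hR hC k _ _ m
  obtain ⟨δ, hδ, hδ2⟩ := hR (1 + (2 * (m + 2) * (2 * (m + 2) + 2) + 2 * (m + 2))) (m + 2)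
    (1 / 2 ^ (m + 3)) (by positivity)
  obtain ⟨w, hw⟩ := hC k (m + 2) δ (by omega) hδ
  refine ⟨w, fun Q hQ I _ α β A₀ hI h1 h2 h3 => ?_⟩
  rcases isEmpty_or_nonempty I with hE | ⟨⟨i₀⟩⟩
  · exact ⟨1, 1, 1, one_ne_zero, one_ne_zero, one_ne_zero, fun i => isEmptyElim i⟩
  obtain ⟨K, hK⟩ : ∃ K : ℕ → Finset k[X], K = Cop (α i₀ * β i₀) := ⟨_, rfl⟩
  have hKi : ∀ i, K = Cop (α i * β i) := by
    intro i
    rw [hK]
    exact Cop_congr fun x => h3 _ _ x
  obtain ⟨j, hj⟩ : ∃ j : ℕ, ∀ i, (β i).natDegree < (α i).natDegree + 2 * (m + 2) * j := by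
    refine ⟨∑ i, (β i).natDegree + 1, fun i => ?_⟩
    have h4 : (β i).natDegree ≤ ∑ i, (β i).natDegree :=
      single_le_sum (f := fun i => (β i).natDegree) (fun _ _ => Nat.zero_le _) (mem_univ i)
    nlinarith
  choose d₀ hd₀ using fun i => hw (α i) (β i) (h1 i).1 (h1 i).2.1 (h1 i).2.2.1 (h2 i) j (hj i)
  obtain ⟨d, hd⟩ : ∃ d, ∀ i, d₀ i ≤ d :=
    ⟨∑ i, d₀ i, fun i => single_le_sum (f := d₀) (fun _ _ => Nat.zero_le _) (mem_univ i)⟩
  have hfin := fun i => hd₀ i d (hd i) K (hKi i)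
  clear hd₀ hd hw
  generalize hN : 2 * (m + 2) * (2 * (m + 2) + 2) = N at *
  generalize hs : 2 * (m + 2) = s at *
  generalize he : (s + 2) * d - j = e at *
  have hfin' : (∀ i, Nonempty (Pt K N s d e (A₀ + N * d) i)) ∧ ∀ i, ∀ U : Finset (Ix N s),
      U.card ≤ s → av (fun x => |ce U (Wf K (α i) (β i) N s d e (A₀ + N * d)) x - 1|) ≤ δ := by
    constructor
    · have := (hfin i₀).1
      rw [(h1 i₀).2.2.2] at this
      exact this
    · intro i
      have := (hfin i).2
      rw [(h1 i).2.2.2] at this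
      exact this
  clear hfin
  obtain ⟨hne, hav⟩ := hfin'
  generalize A₀ + N * d = L at *
  have := hne
  have hx0 : ∀ (i : Ix N s) (x : Pt K N s d e L i), x.1 ≠ 0 := by
    rintro (_ | _ | _) ⟨x, hx⟩ <;>
    · simp only [Sl, hK] at hx
      exact ne_zero_of_mem_Cop hx
  -- the functions
  let Fn : I → (∀ i, Pt K N s d e L i) → ℝ := fun i x =>
    ((Q (fun _ => ∑ t, pc (x (some (Sum.inl t))).1 + pc (α i) - ∑ t, pc (x (some (Sum.inr t))).1 -
      pc (β i)) (pc (x none).1 - ∑ t, pc (x (some (Sum.inr t))).1 - pc (β i)) : ℚ) : ℝ)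
  have key : ∀ i, av (fun x => if Fn i x = 0 then 0 else 1) ≤ 1 / 2 ^ (m + 3) := by
    intro i
    refine hδ2 (Ix N s) (Pt K N s d e L) ?_ (Wf K (α i) (β i) N s d e L) (Fn i) ?_ ?_ ?_ ?_
    · simp only [Fintype.card_option, Fintype.card_sum, Fintype.card_fin]; omega
    · intro x
      unfold Wf
      split_ifs
      · positivity
      · exact le_rfl
    · intro U hU
      exact hav i U (by omega)
    · -- the degree
      let U : Option (Ix N s) → (∀ i, Pt K N s d e L i) → UV (RatFunc k) := fun o x =>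
        match o with
        | none => pc (α i) - pc (β i)
        | some none => 0
        | some (some (Sum.inl t)) => pc (x (some (Sum.inl t))).1
        | some (some (Sum.inr t)) => - pc (x (some (Sum.inr t))).1
      let W : Option (Ix N s) → (∀ i, Pt K N s d e L i) → UV (RatFunc k) := fun o x =>
        match o with
        | none => - pc (β i)
        | some none => pc (x none).1
        | some (some (Sum.inl t)) => 0
        | some (some (Sum.inr t)) => - pc (x (some (Sum.inr t))).1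
      have h4 := deg_multi Q U W
        (by
          rintro (_ | _ | t | t) x y h
          · rfl
          · rfl
          · simp only [U]; rw [h _ rfl]
          · simp only [U]; rw [h _ rfl])
        (by
          rintro (_ | _ | t | t) x y h
          · rfl
          · simp only [W]; rw [h _ rfl]
          · rfl
          · simp only [W]; rw [h _ rfl])
      have h7 : Fn i = fun x => ((Q (fun _ => ∑ o, U o x) (∑ o, W o x) : ℚ) : ℝ) := ?_
      · rw [h7]; exact h4
      funext x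
      simp only [Fn]
      have h5 : ∑ o, U o x = ∑ t, pc (x (some (Sum.inl t))).1 + pc (α i) -
          ∑ t, pc (x (some (Sum.inr t))).1 - pc (β i) := by
        rw [Fintype.sum_option, Fintype.sum_option, Fintype.sum_sum_type]
        simp only [U, sum_neg_distrib]
        abel
      have h6 : ∑ o, W o x = pc (x none).1 - ∑ t, pc (x (some (Sum.inr t))).1 - pc (β i) := by
        rw [Fintype.sum_option, Fintype.sum_option, Fintype.sum_sum_type]
        simp only [W, sum_neg_distrib, sum_const_zero]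
        abel
      rw [h5, h6]
    · -- vanishing on the support
      intro x hx
      have h4 : α i * ∏ t, (x (some (Sum.inl t))).1 + β i * ∏ t, (x (some (Sum.inr t))).1 =
          (x none).1 := by
        by_contra h
        exact hx (if_neg h)
      have h5 := Q_rel Q hQ (h1 i).1.ne_zero (h1 i).2.1.ne_zero
        (prod_ne_zero_iff.2 fun t _ => hx0 _ _) (prod_ne_zero_iff.2 fun t _ => hx0 _ _)
        (hx0 _ _) h4
      rw [pc_prod _ _ fun t _ => hx0 _ _, pc_prod _ _ fun t _ => hx0 _ _] at h5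
      simp only [Fn]
      rw [h5, Rat.cast_zero]
  obtain ⟨x, hx⟩ := exists_common_zero hI Fn key
  refine ⟨∏ t, (x (some (Sum.inl t))).1, ∏ t, (x (some (Sum.inr t))).1, (x none).1,
    prod_ne_zero_iff.2 fun t _ => hx0 _ _, prod_ne_zero_iff.2 fun t _ => hx0 _ _, hx0 _ _,
    fun i => ?_⟩
  rw [pc_prod _ _ fun t _ => hx0 _ _, pc_prod _ _ fun t _ => hx0 _ _]
  have h4 := hx i
  simp only [Fn] at h4
  exact_mod_cast h4

end Pool.Agent.T9h46.GF
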